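import Pool.Agent.Q319.DR.Own

/-!
# The family of all integers up to `N`, indexed by `Fin N`
-/

set_option autoImplicit false

namespace Pool.Agent.Q319.DR

open Finset

/-- the integers `1, ..., N` -/
def idf (N : ℕ) (i : Fin N) : ℤ := (i.1 : ℤ) + 1

lemma idf_inj (N : ℕ) : Function.Injective (idf N) := by
  intro a b h
  apply Fin.ext
  unfold idf at h
  omega

lemma idf_abs (N : ℕ) (i : Fin N) : |idf N i| ≤ N := by
  have := i.2
  unfold idf
  rw [abs_of_nonneg (by positivity)]
  omega

lemma energy_idf (N : ℕ) :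
    Nat.card {q : (Fin 1 → Fin N) × (Fin 1 → Fin N) // ∑ j, idf N (q.1 j) = ∑ j, idf N (q.2 j)} = N := by
  rw [energy_inj _ (idf_inj N), Fintype.card_fin]

lemma set_of_fam (N : ℕ) (P : ℤ → Prop) [DecidablePred fun i : Fin N => P (idf N i)] (S : Finset ℕ) (hS : S ⊆ Icc 1 N) (hSP : ∀ q ∈ S, P q) :
    S.card ≤ (univ.filter (fun i : Fin N => P (idf N i))).card := by
  have h : S ⊆ (univ.filter (fun i : Fin N => P (idf N i))).image (fun i => i.1 + 1) := by
    intro q hq
    have h1 := mem_Icc.1 (hS hq)
    rw [mem_image]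
    refine ⟨⟨q - 1, by omega⟩, ?_, ?_⟩
    · rw [mem_filter]
      refine ⟨mem_univ _, ?_⟩
      have h2 : idf N ⟨q - 1, by omega⟩ = (q : ℤ) := by
        unfold idf
        simp only
        omega
      rw [h2]
      exact hSP q hq
    · simp only
      omega
  exact (card_le_card h).trans card_image_le

end Pool.Agent.Q319.DR
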