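import Pool.Agent.Q319.DR.Mult

/-!
# Arbitrary sets of integers and the windows around the multiples of almost all real numbers: the expected bound

For every finite set `Bd` of natural numbers and `0 ≤ w ≤ N ^ c`: for all `y ∈ [N ^ (1 - θ), 2 N ^ (1 - θ)]` outside a set
of measure at most `N ^ (1 - θ - c)` at most `5 (w + 1) (#Bd / N) N ^ θ + N ^ (θ - c)` of the windows of radius `w` around
the multiples `k y`, `k ≤ N ^ θ`, contain an element of `Bd`.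
-/

set_option autoImplicit false

namespace Pool.Agent.Q319.DR

open Finset MeasureTheory Filter

open Classical in
/-- **Multiples of almost all real numbers**, the expected bound for an arbitrary finite set. -/
theorem mult_gen (θ : ℝ) (hθ : 0 < θ) (hθ1 : θ < 1) : ∃ c : ℝ, 0 < c ∧ c ≤ (1 - θ) / 2 ∧
    ∃ N₀ : ℕ, ∀ N : ℕ, N₀ ≤ N → ∀ (Bd : Finset ℕ) (w : ℝ), 0 ≤ w → w ≤ (N : ℝ) ^ c →
      ∃ E : Set ℝ, MeasurableSet E ∧ volume E ≤ ENNReal.ofReal ((N : ℝ) ^ (1 - θ - c)) ∧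
      ∀ y : ℝ, (N : ℝ) ^ (1 - θ) ≤ y → y ≤ 2 * (N : ℝ) ^ (1 - θ) → y ∉ E →
        (((Icc 1 ⌊(N : ℝ) ^ θ⌋₊).filter (fun k : ℕ => ∃ q ∈ Bd, |(q : ℝ) - k * y| ≤ w)).card : ℝ) ≤
          5 * (w + 1) * (Bd.card / N) * (N : ℝ) ^ θ + (N : ℝ) ^ (θ - c) := by
  obtain ⟨δ, hδd⟩ : ∃ δ : ℝ, δ = θ / 4 := ⟨_, rfl⟩
  have hδ0 : 0 < δ := by rw [hδd]; positivity
  obtain ⟨κ₁, hκ₁, X₀, hP⟩ := Pool.Agent.H438R2.DL.pairs_asymp δ hδ0 (by linarith)
  obtain ⟨κ₂, hκ₂d⟩ : ∃ κ₂ : ℝ, κ₂ = min κ₁ 1 := ⟨_, rfl⟩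
  have hκ₂ : 0 < κ₂ := by rw [hκ₂d]; exact lt_min hκ₁ one_pos
  have hκ21 : κ₂ ≤ κ₁ := by rw [hκ₂d]; exact min_le_left _ _
  have hκ22 : κ₂ ≤ 1 := by rw [hκ₂d]; exact min_le_right _ _
  obtain ⟨c, hcd⟩ : ∃ c : ℝ, c = min (κ₂ / 8) (min (θ / 4) ((1 - θ) / 2)) := ⟨_, rfl⟩
  have hc : 0 < c := by
    rw [hcd]
    exact lt_min (by positivity) (lt_min (by positivity) (by linarith))
  have hc1 : c ≤ κ₂ / 8 := by rw [hcd]; exact min_le_left _ _
  have hc2 : c ≤ θ / 4 := by rw [hcd]; exact (min_le_right _ _).trans (min_le_left _ _)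
  have hc3 : c ≤ (1 - θ) / 2 := by rw [hcd]; exact (min_le_right _ _).trans (min_le_right _ _)
  refine ⟨c, hc, hc3, ?_⟩
  have hex : ∀ᶠ Y : ℝ in atTop,
      (X₀ : ℝ) ^ 2 ≤ Y ∧ 100 ≤ Y ∧ 100 ≤ Real.log Y ∧ 100 * Real.log Y ^ 0 ≤ Y ^ ((1 - θ) / 2 : ℝ) ∧
      20 * Real.log Y ^ 1 ≤ Y ^ (κ₂ / 4) ∧ 16 * Real.log Y ^ 0 ≤ Y ^ (θ / 4) ∧
      100000 * Real.log Y ^ 1 ≤ Y ^ (κ₂ / 4) := by
    filter_upwards [eventually_ge_atTop ((X₀ : ℝ) ^ 2), eventually_ge_atTop 100,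
      ev_log 100, ev_pow ((1 - θ) / 2) (by linarith) 0 100, ev_pow (κ₂ / 4) (by positivity) 1 20,
      ev_pow (θ / 4) (by positivity) 0 16, ev_pow (κ₂ / 4) (by positivity) 1 100000] with Y a c d e f g h
    exact ⟨a, c, d, e, f, g, h⟩
  obtain ⟨N₀, hN₀⟩ := (tendsto_natCast_atTop_atTop.eventually hex).exists_forall_of_atTop
  refine ⟨N₀, fun N hN Bd w hw0 hw1 => ?_⟩
  obtain ⟨g1, g3, g4, g5, g6, g7, g8⟩ := hN₀ N hN
  rw [pow_one] at g6 g8
  rw [pow_zero, mul_one] at g5 g7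
  have hN0 : (0 : ℝ) < N := by linarith
  have hN1 : (1 : ℝ) ≤ N := by linarith
  set L := Real.log (N : ℝ) with hL
  have hL0 : 0 < L := by linarith
  have hL1 : 1 ≤ L := by linarith
  obtain ⟨Y, hYd⟩ : ∃ Y : ℝ, Y = (N : ℝ) ^ (1 - θ) := ⟨_, rfl⟩
  obtain ⟨T, hTd⟩ : ∃ T : ℝ, T = (N : ℝ) ^ (θ / 2) := ⟨_, rfl⟩
  rw [← hYd]
  have hY0 : 0 < Y := by rw [hYd]; positivity
  have hT0 : 0 < T := by rw [hTd]; positivity
  have hT1 : 1 ≤ T := by rw [hTd]; exact Real.one_le_rpow hN1 (by positivity)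
  have hTT : (N : ℝ) ^ θ = T * T := by rw [hTd, ← Real.rpow_add hN0]; congr 1; ring
  have hYTT : Y * (T * T) = N := by
    rw [← hTT, hYd, ← Real.rpow_add hN0]
    simp
  have hYT : Y * T = (N : ℝ) ^ (1 - θ / 2) := by
    rw [hYd, hTd, ← Real.rpow_add hN0]; congr 1; ring
  have hNc1 : 1 ≤ (N : ℝ) ^ c := Real.one_le_rpow hN1 hc.le
  have hYc : 100 * (N : ℝ) ^ c ≤ Y := by
    have e1 : Y = (N : ℝ) ^ ((1 - θ) / 2) * (N : ℝ) ^ ((1 - θ) / 2) := by
      rw [hYd, ← Real.rpow_add hN0]; congr 1; ring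
    rw [e1]
    have e2 : (N : ℝ) ^ c ≤ (N : ℝ) ^ ((1 - θ) / 2) := Real.rpow_le_rpow_of_exponent_le hN1 hc3
    gcongr
  have hY16 : 16 ≤ Y := by linarith
  have hT16 : 16 ≤ T := by
    refine g7.trans ?_
    rw [hTd]
    exact Real.rpow_le_rpow_of_exponent_le hN1 (by linarith)
  -- scales
  obtain ⟨M, hM⟩ : ∃ M : ℕ, M = ⌈Y * T⌉₊ := ⟨_, rfl⟩
  obtain ⟨I, hI⟩ : ∃ I : ℕ, I = ⌊(θ / 2) * L / Real.log 2⌋₊ + 5 := ⟨_, rfl⟩
  obtain ⟨s, hs⟩ : ∃ s : ℕ, s = ⌈w⌉₊ + 1 := ⟨_, rfl⟩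
  obtain ⟨H, hH⟩ : ∃ H : ℝ, H = 2 * s + 1 := ⟨_, rfl⟩
  have hlog2 : 0 < Real.log 2 := Real.log_pos (by norm_num)
  have hlog22 : 1 / 2 ≤ Real.log 2 := by have := Real.log_two_gt_d9; linarith
  have hsle : (s : ℝ) ≤ w + 2 := by
    have := Nat.ceil_lt_add_one hw0
    rw [hs]; push_cast; linarith
  have hsge : w + 1 ≤ s := by
    have := Nat.le_ceil w
    rw [hs]; push_cast; linarith
  have hs0 : (0 : ℝ) ≤ s := Nat.cast_nonneg _
  have hH1 : 1 ≤ H := by rw [hH]; linarith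
  have hHle : H ≤ 5 * (w + 1) := by rw [hH]; linarith
  have hHc : H ≤ 10 * (N : ℝ) ^ c := by linarith
  have hHY : H ≤ Y := by linarith
  have hMge : Y * T ≤ M := by rw [hM]; exact Nat.le_ceil _
  have hMle : (M : ℝ) ≤ 2 * (Y * T) := by
    have h1 := Nat.ceil_lt_add_one (show 0 ≤ Y * T by positivity)
    rw [← hM] at h1
    have : 1 ≤ Y * T := by nlinarith
    linarith
  have hYM : Y ≤ M := by nlinarith
  have hM0 : (0 : ℝ) < M := by linarith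
  have hMn : 0 < M := by exact_mod_cast hM0
  have hM1 : (1 : ℝ) ≤ M := by linarith
  have hMsq : (N : ℝ) ^ (1 / 2 : ℝ) ≤ M := by
    refine le_trans ?_ hMge
    rw [hYT]
    exact Real.rpow_le_rpow_of_exponent_le hN1 (by linarith)
  have hYMδ : Y ≤ (M : ℝ) ^ (1 - δ) := by
    have h1 : (Y * T) ^ (1 - δ) ≤ (M : ℝ) ^ (1 - δ) :=
      Real.rpow_le_rpow (by positivity) hMge (by linarith)
    refine le_trans ?_ h1
    rw [hYT, ← Real.rpow_mul hN0.le, hYd]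
    exact Real.rpow_le_rpow_of_exponent_le hN1 (by rw [hδd]; nlinarith)
  have h2I : (2 : ℝ) ^ I ≤ 32 * T := by
    have h1 : ((2 : ℝ)) ^ ⌊(θ / 2) * L / Real.log 2⌋₊ ≤ T := by
      have h2 : ((⌊(θ / 2) * L / Real.log 2⌋₊ : ℕ) : ℝ) ≤ (θ / 2) * L / Real.log 2 := Nat.floor_le (by positivity)
      rw [hTd, ← Real.rpow_natCast, Real.rpow_def_of_pos (by norm_num), Real.rpow_def_of_pos hN0]
      apply Real.exp_le_exp.2
      rw [le_div_iff₀ hlog2] at h2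
      rw [← hL]
      linarith
    rw [hI, pow_add]
    linarith
  have h2I' : 16 * T ≤ (2 : ℝ) ^ I := by
    have h1 : T ≤ ((2 : ℝ)) ^ (⌊(θ / 2) * L / Real.log 2⌋₊ + 1) := by
      have h2 := Nat.lt_floor_add_one ((θ / 2) * L / Real.log 2)
      rw [hTd, ← Real.rpow_natCast, Real.rpow_def_of_pos hN0, Real.rpow_def_of_pos (show (0 : ℝ) < 2 by norm_num)]
      apply Real.exp_le_exp.2
      rw [div_lt_iff₀ hlog2] at h2
      rw [← hL]
      push_cast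
      linarith
    have h3 : (2 : ℝ) ^ I = 16 * 2 ^ (⌊(θ / 2) * L / Real.log 2⌋₊ + 1) := by rw [hI]; ring
    rw [h3]
    linarith
  have hIle2 : (I : ℝ) ≤ 20 * L := by
    have h2 : ((⌊(θ / 2) * L / Real.log 2⌋₊ : ℕ) : ℝ) ≤ (θ / 2) * L / Real.log 2 := Nat.floor_le (by positivity)
    have h3 : (θ / 2) * L / Real.log 2 ≤ L := by
      rw [div_le_iff₀ hlog2]
      nlinarith
    rw [hI]
    push_cast
    linarith
  have hIle : (I : ℝ) ≤ (N : ℝ) ^ (κ₂ / 4) := hIle2.trans g6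
  have hX : ∀ i : ℕ, M ≤ 2 ^ i * M := fun i => Nat.le_mul_of_pos_left _ (by positivity)
  have hXR : ∀ i : ℕ, (M : ℝ) ≤ ((2 ^ i * M : ℕ) : ℝ) := fun i => by exact_mod_cast hX i
  have hX₀M : X₀ ≤ M := by
    have h1 : (X₀ : ℝ) ≤ (N : ℝ) ^ (1 / 2 : ℝ) := by
      rw [← Real.sqrt_eq_rpow]
      exact Real.le_sqrt_of_sq_le g1
    have : (X₀ : ℝ) ≤ M := h1.trans hMsq
    exact_mod_cast this
  have hNκ : ∀ i : ℕ, (((2 ^ i * M : ℕ) : ℝ)) ^ (-κ₁) ≤ (N : ℝ) ^ (-(κ₂ / 2)) := by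
    intro i
    have h1 : (N : ℝ) ^ (1 / 2 : ℝ) ≤ ((2 ^ i * M : ℕ) : ℝ) := hMsq.trans (hXR i)
    calc (((2 ^ i * M : ℕ) : ℝ)) ^ (-κ₁) ≤ (((2 ^ i * M : ℕ) : ℝ)) ^ (-κ₂) :=
          Real.rpow_le_rpow_of_exponent_le (hM1.trans (hXR i)) (by linarith)
      _ ≤ ((N : ℝ) ^ (1 / 2 : ℝ)) ^ (-κ₂) := Real.rpow_le_rpow_of_nonpos (by positivity) h1 (by linarith)
      _ = (N : ℝ) ^ (-(κ₂ / 2)) := by
        rw [← Real.rpow_mul hN0.le]; congr 1; ring
  -- the bad sets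
  set P : ℕ → Finset ℕ := fun i => (Ioc (2 ^ i * M) (2 * (2 ^ i * M))).filter (fun q => q + s ∈ Bd) with hPd
  have hPdisj : ∀ i j : ℕ, i < j → Disjoint (P i) (P j) := by
    intro i j hij
    rw [Finset.disjoint_left]
    intro q hq1 hq2
    rw [hPd] at hq1 hq2
    simp only [mem_filter, mem_Ioc] at hq1 hq2
    have h1 : 2 * (2 ^ i * M) ≤ 2 ^ j * M := by
      have h2 : 2 ^ (i + 1) ≤ 2 ^ j := Nat.pow_le_pow_right (by norm_num) hij
      calc 2 * (2 ^ i * M) = 2 ^ (i + 1) * M := by ring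
        _ ≤ 2 ^ j * M := Nat.mul_le_mul_right _ h2
    omega
  have hPsum : ∑ i ∈ range I, ((P i).card : ℝ) ≤ Bd.card := by
    have h1 : ∑ i ∈ range I, (P i).card = ((range I).biUnion P).card := by
      rw [card_biUnion]
      intro i _ j _ hij
      rcases lt_or_gt_of_ne hij with h | h
      · exact hPdisj i j h
      · exact (hPdisj j i h).symm
    have h5 : (((range I).biUnion P).image (fun q => q + s)).card = ((range I).biUnion P).card :=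
      card_image_of_injective _ (fun a b h => by simpa using h)
    have h6 : ((range I).biUnion P).image (fun q => q + s) ⊆ Bd := by
      intro a ha
      rw [mem_image] at ha
      obtain ⟨q, hq, rfl⟩ := ha
      rw [mem_biUnion] at hq
      obtain ⟨i, -, hi⟩ := hq
      rw [hPd] at hi
      exact (mem_filter.1 hi).2
    have h7 := card_le_card h6
    rw [h5, ← h1] at h7
    exact_mod_cast h7
  have hEx : ∀ i : ℕ, ∃ E : Set ℝ, MeasurableSet E ∧ volume E ≤ ENNReal.ofReal (Y * (((2 ^ i * M : ℕ) : ℝ)) ^ (-κ₁)) ∧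
      ∀ x : ℝ, Y ≤ x → x ≤ 2 * Y → x ∉ E →
        |({q : ℕ × ℕ | q.2 ∈ P i ∧ (q.1 : ℝ) * x - H < q.2 ∧ (q.2 : ℝ) < q.1 * x}.ncard : ℝ) -
          (H / x) * (P i).card| ≤ (H / x) * (((2 ^ i * M : ℕ) : ℝ)) ^ (1 - κ₁) := by
    intro i
    refine hP (2 ^ i * M) (hX₀M.trans (hX i)) (P i) (filter_subset _ _) Y H hY0 ?_ ?_ hHY
    · exact hYMδ.trans (Real.rpow_le_rpow hM0.le (hXR i) (by linarith))
    · refine le_trans ?_ hH1
      apply Real.rpow_le_one_of_one_le_of_nonpos _ (by linarith)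
      have := hXR i
      linarith
  choose E hE1 hE2 hE3 using hEx
  refine ⟨⋃ i ∈ range I, E i, Finset.measurableSet_biUnion _ (fun i _ => hE1 i), ?_, ?_⟩
  · refine (measure_biUnion_finset_le _ _).trans ?_
    have h1 : ∀ i ∈ range I, volume (E i) ≤ ENNReal.ofReal (Y * (N : ℝ) ^ (-(κ₂ / 2))) := by
      intro i _
      refine (hE2 i).trans (ENNReal.ofReal_le_ofReal ?_)
      exact mul_le_mul_of_nonneg_left (hNκ i) hY0.le
    refine (Finset.sum_le_sum h1).trans ?_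
    rw [sum_const, card_range, nsmul_eq_mul, ← ENNReal.ofReal_natCast, ← ENNReal.ofReal_mul (Nat.cast_nonneg _)]
    apply ENNReal.ofReal_le_ofReal
    calc (I : ℝ) * (Y * (N : ℝ) ^ (-(κ₂ / 2))) ≤ (N : ℝ) ^ (κ₂ / 4) * (Y * (N : ℝ) ^ (-(κ₂ / 2))) := by gcongr
      _ = (N : ℝ) ^ (1 - θ - κ₂ / 4) := by
        rw [hYd, ← Real.rpow_add hN0, ← Real.rpow_add hN0]
        congr 1
        ring
      _ ≤ (N : ℝ) ^ (1 - θ - c) := Real.rpow_le_rpow_of_exponent_le hN1 (by linarith)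
  · intro y hy1 hy2 hyE
    have hy0 : 0 < y := by linarith
    have hyE' : ∀ i < I, y ∉ E i := by
      intro i hi h
      exact hyE (Set.mem_biUnion (mem_coe.2 (mem_range.2 hi)) h)
    rw [hTT]
    set B : Finset ℕ := (Icc 1 ⌊T * T⌋₊).filter (fun k : ℕ => ∃ q ∈ Bd, |(q : ℝ) - k * y| ≤ w) with hB
    set Tk : ℕ → Finset ℕ := fun i => (Icc 1 ⌊T * T⌋₊).filter
      (fun k : ℕ => ∃ q ∈ P i, (k : ℝ) * y - H < q ∧ (q : ℝ) < k * y) with hTk
    have hsub : B ⊆ Icc 1 ⌊4 * T⌋₊ ∪ (range I).biUnion Tk := by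
      intro k hk
      rw [hB, mem_filter, mem_Icc] at hk
      obtain ⟨⟨hk1, hk2⟩, q, hq1, hq2⟩ := hk
      obtain ⟨hq3, hq4⟩ := abs_le.1 hq2
      have hkY : (k : ℝ) ≤ T * T := (Nat.le_floor_iff (by positivity)).1 hk2
      rw [mem_union]
      by_cases hqM : q ≤ M + s
      · left
        rw [mem_Icc]
        refine ⟨hk1, Nat.le_floor ?_⟩
        have hqR : (q : ℝ) ≤ M + s := by exact_mod_cast hqM
        have h1 : (k : ℝ) * y ≤ M + s + w := by linarith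
        have h2 : (k : ℝ) * Y ≤ k * y := by gcongr
        have h3 : (k : ℝ) * Y ≤ (4 * T) * Y := by nlinarith
        exact le_of_mul_le_mul_right h3 hY0
      · right
        push Not at hqM
        have hqsub : ((q - s : ℕ) : ℝ) = (q : ℝ) - s := by
          rw [Nat.cast_sub (by omega)]
        have hup : q - s ≤ 2 ^ I * M := by
          have h1 : ((q - s : ℕ) : ℝ) ≤ ((2 ^ I * M : ℕ) : ℝ) := by
            rw [hqsub]
            push_cast
            have h2 : (k : ℝ) * y ≤ (T * T) * (2 * Y) := by gcongr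
            have h3 : 16 * T * (Y * T) ≤ (2 : ℝ) ^ I * M := by gcongr
            nlinarith
          exact_mod_cast h1
        obtain ⟨i, hi, h1, h2⟩ := dyad M I (q - s) (by omega) hup
        rw [mem_biUnion]
        refine ⟨i, mem_range.2 hi, ?_⟩
        rw [hTk]
        simp only [mem_filter, mem_Icc]
        refine ⟨⟨hk1, hk2⟩, q - s, ?_, ?_, ?_⟩
        · rw [hPd]
          simp only [mem_filter, mem_Ioc]
          refine ⟨⟨h1, h2⟩, ?_⟩
          rw [Nat.sub_add_cancel (by omega)]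
          exact hq1
        · rw [hqsub, hH]; linarith
        · rw [hqsub]; linarith
    have hTc : ∀ i ∈ range I, ((Tk i).card : ℝ) ≤ (H / Y) * (P i).card + (H / Y) * (64 * N * (N : ℝ) ^ (-(κ₂ / 2))) := by
      intro i hi
      rw [mem_range] at hi
      have h1 := hE3 i y hy1 hy2 (hyE' i hi)
      have h2 := fst_card (P i) H y hy0 (Icc 1 ⌊T * T⌋₊)
      have h3 := (abs_le.1 h1).2
      have h11 : (((2 ^ i * M : ℕ) : ℝ)) ^ (1 - κ₁) ≤ 64 * N * (N : ℝ) ^ (-(κ₂ / 2)) := by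
        have hX0 : (0 : ℝ) < ((2 ^ i * M : ℕ) : ℝ) := hM0.trans_le (hXR i)
        have e2 : (((2 ^ i * M : ℕ) : ℝ)) ^ (1 - κ₁) = ((2 ^ i * M : ℕ) : ℝ) * (((2 ^ i * M : ℕ) : ℝ)) ^ (-κ₁) := by
          rw [sub_eq_add_neg, Real.rpow_add hX0, Real.rpow_one]
        have e4 : ((2 ^ i * M : ℕ) : ℝ) ≤ 64 * N := by
          push_cast
          have h5 : (2 : ℝ) ^ i ≤ 2 ^ I := pow_le_pow_right₀ (by norm_num) hi.le
          calc (2 : ℝ) ^ i * M ≤ 2 ^ I * M := by gcongr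
            _ ≤ (32 * T) * (2 * (Y * T)) := by gcongr
            _ = 64 * N := by rw [← hYTT]; ring
        rw [e2]
        exact mul_le_mul e4 (hNκ i) (by positivity) (by positivity)
      have h13 : H / y ≤ H / Y := div_le_div_of_nonneg_left (by linarith) hY0 hy1
      calc ((Tk i).card : ℝ) ≤ _ := h2
        _ ≤ (H / y) * (P i).card + (H / y) * (((2 ^ i * M : ℕ) : ℝ)) ^ (1 - κ₁) := by linarith
        _ ≤ _ := by gcongr
    have hsum : ∑ i ∈ range I, ((Tk i).card : ℝ) ≤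
        (H / Y) * Bd.card + I * ((H / Y) * (64 * N * (N : ℝ) ^ (-(κ₂ / 2)))) := by
      refine (sum_le_sum hTc).trans ?_
      rw [sum_add_distrib, sum_const, card_range, nsmul_eq_mul, ← mul_sum]
      have hHY0 : 0 ≤ H / Y := by positivity
      have := mul_le_mul_of_nonneg_left hPsum hHY0
      linarith
    have hcard : (B.card : ℝ) ≤ 4 * T + ∑ i ∈ range I, ((Tk i).card : ℝ) := by
      have h1 := card_le_card hsub
      have h2 := (h1.trans (card_union_le _ _)).trans (Nat.add_le_add_left card_biUnion_le _)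
      rw [Nat.card_Icc, Nat.add_sub_cancel] at h2
      have h3 : ((⌊4 * T⌋₊ : ℕ) : ℝ) ≤ 4 * T := Nat.floor_le (by positivity)
      have h4 : (B.card : ℝ) ≤ ((⌊4 * T⌋₊ : ℕ) : ℝ) + ∑ i ∈ range I, ((Tk i).card : ℝ) := by exact_mod_cast h2
      linarith
    refine hcard.trans ((add_le_add_right hsum _).trans ?_)
    have hNY : (N : ℝ) / Y = T * T := by rw [← hYTT]; field_simp
    have e0 : (N : ℝ) ^ (θ - c) = (T * T) * (N : ℝ) ^ (-c) := by
      rw [← hTT, ← Real.rpow_add hN0]; congr 1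
    -- first term
    have t1 : 4 * T ≤ (1 / 2) * (N : ℝ) ^ (θ - c) := by
      have e1 : (N : ℝ) ^ (θ - c) = T * (N : ℝ) ^ (θ / 2 - c) := by
        rw [hTd, ← Real.rpow_add hN0]; congr 1; ring
      have e2 : (N : ℝ) ^ (θ / 4) ≤ (N : ℝ) ^ (θ / 2 - c) := Real.rpow_le_rpow_of_exponent_le hN1 (by linarith)
      rw [e1]
      nlinarith
    have t2 : (H / Y) * Bd.card ≤ 5 * (w + 1) * (Bd.card / N) * (T * T) := by
      have e1 : 5 * (w + 1) * ((Bd.card : ℝ) / N) * (T * T) = (5 * (w + 1) / Y) * Bd.card := by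
        rw [← hNY]
        field_simp
      rw [e1]
      gcongr
    have t3 : I * ((H / Y) * (64 * N * (N : ℝ) ^ (-(κ₂ / 2)))) ≤ (1 / 2) * (N : ℝ) ^ (θ - c) := by
      have e1 : I * ((H / Y) * (64 * N * (N : ℝ) ^ (-(κ₂ / 2)))) = (T * T) * ((64 * (I * H)) * (N : ℝ) ^ (-(κ₂ / 2))) := by
        rw [← hNY]
        field_simp
      have e2 : (1 / 2) * (N : ℝ) ^ (θ - c) = (T * T) * ((1 / 2) * (N : ℝ) ^ (-c)) := by rw [e0]; ring
      rw [e1, e2]
      apply mul_le_mul_of_nonneg_left _ (by positivity)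
      have e3 : 64 * (I * H) ≤ 64 * ((20 * L) * (10 * (N : ℝ) ^ c)) := by gcongr
      have e4 : 64 * ((20 * L) * (10 * (N : ℝ) ^ c)) ≤ (1 / 2) * ((N : ℝ) ^ (κ₂ / 4) * (N : ℝ) ^ c) := by
        have : 0 < (N : ℝ) ^ c := by positivity
        nlinarith
      calc 64 * (I * H) * (N : ℝ) ^ (-(κ₂ / 2)) ≤ ((1 / 2) * ((N : ℝ) ^ (κ₂ / 4) * (N : ℝ) ^ c)) * (N : ℝ) ^ (-(κ₂ / 2)) := by
            exact mul_le_mul_of_nonneg_right (e3.trans e4) (by positivity)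
        _ = (1 / 2) * (N : ℝ) ^ (c - κ₂ / 4) := by
            rw [mul_assoc, ← Real.rpow_add hN0, ← Real.rpow_add hN0]
            congr 2
            ring
        _ ≤ (1 / 2) * (N : ℝ) ^ (-c) := by
            have : (N : ℝ) ^ (c - κ₂ / 4) ≤ (N : ℝ) ^ (-c) := Real.rpow_le_rpow_of_exponent_le hN1 (by linarith)
            linarith
    linarith

end Pool.Agent.Q319.DR
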