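import Pool.Agent.Q319.DR.Mult

/-!
# Exceptional sets with a power saving and the dilates of sequences of polynomial growth by almost all real numbers
-/

set_option autoImplicit false

namespace Pool.Agent.Q319.DR

open Finset MeasureTheory Filter

/-- the set of the `α ∈ (0, D]` for which the window of radius `h` around `α N` contains an element of `T` -/
def HitP (T : Set ℕ) (D N : ℕ) (h : ℝ) : Set ℝ :=
  {α | 0 < α ∧ α ≤ D ∧ ∃ q : ℕ, |(q : ℝ) - α * N| ≤ h ∧ q ∈ T}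

open Classical in
lemma hitP_vol (T : Set ℕ) (κ C : ℝ) (hκ1 : κ ≤ 1) (hC : 0 ≤ C)
    (hT : ∀ X : ℕ, (((Ioc 0 X).filter (fun n => n ∈ T)).card : ℝ) ≤ C * (X : ℝ) ^ (1 - κ)) (D N : ℕ) (h : ℝ)
    (hN : 1 ≤ N) (hh : 1 ≤ h) (hhN : h ≤ N) :
    volume (HitP T D N h) ≤ ENNReal.ofReal (2 * (C * ((D + 1 : ℕ) : ℝ) ^ (1 - κ) + 1) * h * (N : ℝ) ^ (-κ)) := by
  have hN0 : (0 : ℝ) < N := by exact_mod_cast hN
  set S : Finset ℕ := (Ioc 0 ((D + 1) * N)).filter (fun n => n ∈ T) with hS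
  have hScard : (S.card : ℝ) ≤ C * (((D + 1 : ℕ) : ℝ) ^ (1 - κ) * (N : ℝ) ^ (1 - κ)) := by
    refine (hT _).trans (le_of_eq ?_)
    rw [← Real.mul_rpow (Nat.cast_nonneg _) (Nat.cast_nonneg _)]
    push_cast
    rfl
  have hsub : HitP T D N h ⊆ ⋃ q ∈ insert 0 S, Set.Icc (((q : ℝ) - h) / N) (((q : ℝ) + h) / N) := by
    rintro α ⟨hα0, hα1, q, hq1, hq2⟩
    obtain ⟨hq3, hq4⟩ := abs_le.1 hq1
    rw [Set.mem_iUnion₂]
    refine ⟨q, ?_, ?_⟩
    · rw [mem_insert]
      rcases Nat.eq_zero_or_pos q with h0 | h0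
      · exact Or.inl h0
      · right
        rw [hS, mem_filter, mem_Ioc]
        refine ⟨⟨h0, ?_⟩, hq2⟩
        have h5 : (q : ℝ) ≤ (((D + 1) * N : ℕ) : ℝ) := by
          have : α * N ≤ D * N := by gcongr
          push_cast
          linarith
        exact_mod_cast h5
    · rw [Set.mem_Icc, div_le_iff₀ hN0, le_div_iff₀ hN0]
      constructor <;> linarith
  refine (measure_mono hsub).trans ((measure_biUnion_finset_le _ _).trans ?_)
  have h2 : ∀ q ∈ insert 0 S, volume (Set.Icc (((q : ℝ) - h) / N) (((q : ℝ) + h) / N)) ≤ ENNReal.ofReal (2 * h / N) := by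
    intro q _
    rw [Real.volume_Icc]
    apply le_of_eq
    congr 1
    field_simp
    ring
  refine (Finset.sum_le_sum h2).trans ?_
  rw [sum_const, nsmul_eq_mul, ← ENNReal.ofReal_natCast, ← ENNReal.ofReal_mul (Nat.cast_nonneg _)]
  apply ENNReal.ofReal_le_ofReal
  have h3 : ((insert 0 S).card : ℝ) ≤ S.card + 1 := by exact_mod_cast card_insert_le _ _
  have h4 : (1 : ℝ) ≤ (N : ℝ) ^ (1 - κ) := Real.one_le_rpow (by exact_mod_cast hN) (by linarith)
  calc ((insert 0 S).card : ℝ) * (2 * h / N)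
      ≤ (C * (((D + 1 : ℕ) : ℝ) ^ (1 - κ) * (N : ℝ) ^ (1 - κ)) + (N : ℝ) ^ (1 - κ)) * (2 * h / N) := by
        apply mul_le_mul_of_nonneg_right _ (by positivity)
        linarith
    _ = 2 * (C * ((D + 1 : ℕ) : ℝ) ^ (1 - κ) + 1) * h * ((N : ℝ) ^ (1 - κ) * (N : ℝ)⁻¹) := by
        field_simp
    _ = _ := by
        congr 1
        rw [← Real.rpow_neg_one, ← Real.rpow_add hN0]
        congr 1
        ring

open Classical in
/-- **Dilates of sequences of polynomial growth, exceptional sets with a power saving.** -/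
theorem lac_pow (T : Set ℕ) (κ C : ℝ) (hκ1 : κ ≤ 1)
    (hT : ∀ X : ℕ, (((Ioc 0 X).filter (fun n => n ∈ T)).card : ℝ) ≤ C * (X : ℝ) ^ (1 - κ))
    (η s : ℝ) (hη : 0 ≤ η) (hηκ : η < κ) (hs : 1 < s) (b : ℕ → ℕ)
    (hb : ∀ᶠ k : ℕ in atTop, (k : ℝ) ^ (s / (κ - η)) ≤ b k) :
    ∀ᵐ α : ℝ, 0 < α → ∀ᶠ k : ℕ in atTop, ∀ q : ℕ, |(q : ℝ) - α * b k| ≤ (b k : ℝ) ^ η → q ∉ T := by
  have hd : 0 < κ - η := by linarith
  have hC : 0 ≤ C := by
    have h1 := hT 1
    rw [Nat.cast_one, Real.one_rpow, mul_one] at h1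
    exact (Nat.cast_nonneg _).trans h1
  have hkey : ∀ D : ℕ, ∀ᵐ α : ℝ, ∀ᶠ k : ℕ in atTop, α ∉ HitP T D (b k) ((b k : ℝ) ^ η) := by
    intro D
    set W : ℝ := 2 * (C * ((D + 1 : ℕ) : ℝ) ^ (1 - κ) + 1) with hW
    have hW0 : 0 ≤ W := by positivity
    have hev : ∀ᶠ k : ℕ in atTop, volume (HitP T D (b k) ((b k : ℝ) ^ η)) ≤
        ENNReal.ofReal (W * (1 / (k : ℝ) ^ s)) := by
      filter_upwards [hb, eventually_ge_atTop 1] with k f4 f5
      have hk1 : (1 : ℝ) ≤ k := by exact_mod_cast f5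
      have hb1 : (1 : ℝ) ≤ b k := le_trans (Real.one_le_rpow hk1 (by positivity)) f4
      have hb0 : (0 : ℝ) < b k := by linarith
      refine (hitP_vol T κ C hκ1 hC hT D (b k) _ (by exact_mod_cast hb1) (Real.one_le_rpow hb1 hη) ?_).trans
        (ENNReal.ofReal_le_ofReal ?_)
      · calc (b k : ℝ) ^ η ≤ (b k : ℝ) ^ (1 : ℝ) := Real.rpow_le_rpow_of_exponent_le hb1 (by linarith)
          _ = _ := Real.rpow_one _
      · rw [← hW, mul_assoc, ← Real.rpow_add hb0]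
        apply mul_le_mul_of_nonneg_left _ hW0
        have h6 : (k : ℝ) ^ s ≤ (b k : ℝ) ^ (κ - η) := by
          calc (k : ℝ) ^ s = ((k : ℝ) ^ (s / (κ - η))) ^ (κ - η) := by
                rw [← Real.rpow_mul (by linarith)]
                congr 1
                field_simp
            _ ≤ _ := Real.rpow_le_rpow (by positivity) f4 hd.le
        have h7 : (b k : ℝ) ^ (η + -κ) = 1 / (b k : ℝ) ^ (κ - η) := by
          rw [show η + -κ = -(κ - η) by ring, Real.rpow_neg hb0.le, one_div]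
        rw [h7]
        exact one_div_le_one_div_of_le (by positivity) h6
    obtain ⟨K, hK⟩ := hev.exists_forall_of_atTop
    have hsum : ∑' j : ℕ, volume (HitP T D (b (j + (K + 1))) ((b (j + (K + 1)) : ℝ) ^ η)) ≠ ⊤ := by
      have hs : Summable (fun j : ℕ => W * (1 / ((j + (K + 1) : ℕ) : ℝ) ^ s)) := by
        apply Summable.mul_left
        exact (summable_nat_add_iff (K + 1)).2 (Real.summable_one_div_nat_rpow.2 hs)
      refine ne_top_of_le_ne_top ?_ (ENNReal.tsum_le_tsum (fun j => hK (j + (K + 1)) (by omega)))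
      exact hs.tsum_ofReal_ne_top
    have h5 := ae_eventually_notMem hsum
    filter_upwards [h5] with α hα
    obtain ⟨J, hJ⟩ := hα.exists_forall_of_atTop
    refine eventually_atTop.2 ⟨J + (K + 1), fun k hk => ?_⟩
    have h6 := hJ (k - (K + 1)) (by omega)
    rwa [Nat.sub_add_cancel (by omega)] at h6
  have hall : ∀ᵐ α : ℝ, ∀ n : ℕ, ∀ᶠ k : ℕ in atTop, α ∉ HitP T n (b k) ((b k : ℝ) ^ η) := by
    rw [ae_all_iff]
    exact hkey
  filter_upwards [hall] with α hα hα0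
  obtain ⟨n, hn⟩ := exists_nat_ge α
  filter_upwards [hα n] with k hk q hq hbq
  exact hk ⟨hα0, hn, q, hq, hbq⟩

end Pool.Agent.Q319.DR
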