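import Pool.Agent.Q319.DR.MultP

/-!
# The multiples of almost all real numbers: power saving, bad numbers at one scale; windows around dilates
-/

set_option autoImplicit false

namespace Pool.Agent.Q319.DR

open Finset MeasureTheory Filter

open Classical in
/-- **Multiples of almost all real numbers**, power saving, uniformly in the set of the bad numbers. -/
theorem mult_oneP (θ : ℝ) (hθ : 0 < θ) (hθ1 : θ < 1) (κT : ℝ) (hκT : 0 < κT) : ∃ c : ℝ, 0 < c ∧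
    ∀ C : ℝ, ∃ N₀ : ℕ, ∀ N : ℕ, N₀ ≤ N → ∀ bad : ℕ → Prop, (∀ S : Finset ℕ, S ⊆ Icc 1 (4 * N) → (∀ n ∈ S, bad n) →
      (S.card : ℝ) ≤ C * (N : ℝ) ^ (1 - κT)) →
      ∃ E : Set ℝ, MeasurableSet E ∧ volume E ≤ ENNReal.ofReal ((N : ℝ) ^ (1 - θ - c)) ∧
      ∀ y : ℝ, (N : ℝ) ^ (1 - θ) ≤ y → y ≤ 2 * (N : ℝ) ^ (1 - θ) → y ∉ E →
        (((Icc 1 ⌊(N : ℝ) ^ θ⌋₊).filter (fun k : ℕ => ∃ q : ℕ, |(q : ℝ) - k * y| ≤ (N : ℝ) ^ c ∧ bad q)).card : ℝ) ≤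
          (N : ℝ) ^ (θ - c) := by
  obtain ⟨c, hc, hc1, hcT, h⟩ := mult_setP θ hθ hθ1 κT hκT
  refine ⟨c, hc, fun C => ?_⟩
  obtain ⟨N₀, hN⟩ := h C
  refine ⟨N₀ + 2, fun N hNN bad hbad => ?_⟩
  have hN2 : (2 : ℝ) ≤ N := by exact_mod_cast (by omega : 2 ≤ N)
  have hN1 : (1 : ℝ) ≤ N := by linarith
  have hN0 : (0 : ℝ) < N := by linarith
  obtain ⟨E, hE1, hE2, hE3⟩ := hN N (by omega) ((Icc 1 (4 * N)).filter bad)
    (hbad _ (filter_subset _ _) fun n hn => (mem_filter.1 hn).2)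
  refine ⟨E, hE1, hE2, fun y hy1 hy2 hyE => le_trans ?_ (hE3 y hy1 hy2 hyE)⟩
  apply Nat.cast_le.2
  apply card_le_card
  intro k hk
  rw [mem_filter, mem_Icc] at hk ⊢
  obtain ⟨⟨hk1, hk2⟩, q, hq1, hq2⟩ := hk
  refine ⟨⟨hk1, hk2⟩, q, ?_, hq1⟩
  rw [mem_filter, mem_Icc]
  obtain ⟨hq3, hq4⟩ := abs_le.1 hq1
  have hkN : (k : ℝ) ≤ (N : ℝ) ^ θ := (Nat.le_floor_iff (by positivity)).1 hk2
  have hk1R : (1 : ℝ) ≤ k := by exact_mod_cast hk1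
  have hY0 : 0 < (N : ℝ) ^ (1 - θ) := by positivity
  have hYN : (N : ℝ) ^ θ * (N : ℝ) ^ (1 - θ) = N := by
    rw [← Real.rpow_add hN0]
    simp
  have hYN1 : (N : ℝ) ^ (1 - θ) ≤ N := by
    calc (N : ℝ) ^ (1 - θ) ≤ (N : ℝ) ^ (1 : ℝ) := Real.rpow_le_rpow_of_exponent_le hN1 (by linarith)
      _ = N := Real.rpow_one _
  have hRY : (N : ℝ) ^ c < (N : ℝ) ^ (1 - θ) := Real.rpow_lt_rpow_of_exponent_lt (by linarith) hc1
  refine ⟨⟨?_, ?_⟩, hq2⟩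
  · have h5 : 0 < (q : ℝ) := by nlinarith
    exact_mod_cast h5
  · have h5 : (k : ℝ) * y ≤ (N : ℝ) ^ θ * (2 * (N : ℝ) ^ (1 - θ)) := by
      apply mul_le_mul hkN hy2 (by linarith) (by positivity)
    have h6 : (q : ℝ) ≤ 4 * N := by nlinarith
    exact_mod_cast h6

/-- the set of the `α ∈ (0, D]` for which a bad `n ≥ 1` is at a distance of at most `w` from `α v` -/
def HitR (bad : ℕ → Prop) (D : ℕ) (v w : ℝ) : Set ℝ :=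
  {α | 0 < α ∧ α ≤ D ∧ ∃ n : ℕ, 1 ≤ n ∧ |(n : ℝ) - α * v| ≤ w ∧ bad n}

open Classical in
lemma hitR_vol (bad : ℕ → Prop) (D : ℕ) (v w g : ℝ) (hv : 0 < v) (hw : 0 ≤ w) (hwv : w ≤ v)
    (hg : ∀ S : Finset ℕ, S ⊆ Icc 1 ⌊(D + 1) * v⌋₊ → (∀ n ∈ S, bad n) → (S.card : ℝ) * (2 * w / v) ≤ g) :
    volume (HitR bad D v w) ≤ ENNReal.ofReal g := by
  set S : Finset ℕ := (Icc 1 ⌊(D + 1) * v⌋₊).filter bad with hS
  have hsub : HitR bad D v w ⊆ ⋃ n ∈ S, Set.Icc (((n : ℝ) - w) / v) (((n : ℝ) + w) / v) := by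
    rintro α ⟨hα0, hα1, n, hn1, hn2, hn3⟩
    obtain ⟨h3, h4⟩ := abs_le.1 hn2
    rw [Set.mem_iUnion₂]
    refine ⟨n, ?_, ?_⟩
    · rw [hS, mem_filter, mem_Icc]
      refine ⟨⟨hn1, Nat.le_floor ?_⟩, hn3⟩
      have : α * v ≤ D * v := by gcongr
      linarith
    · rw [Set.mem_Icc, div_le_iff₀ hv, le_div_iff₀ hv]
      constructor <;> linarith
  refine (measure_mono hsub).trans ((measure_biUnion_finset_le _ _).trans ?_)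
  have h2 : ∀ n ∈ S, volume (Set.Icc (((n : ℝ) - w) / v) (((n : ℝ) + w) / v)) ≤ ENNReal.ofReal (2 * w / v) := by
    intro n _
    rw [Real.volume_Icc]
    apply le_of_eq
    congr 1
    field_simp
    ring
  refine (Finset.sum_le_sum h2).trans ?_
  rw [sum_const, nsmul_eq_mul, ← ENNReal.ofReal_natCast, ← ENNReal.ofReal_mul (Nat.cast_nonneg _)]
  exact ENNReal.ofReal_le_ofReal (hg S (filter_subset _ _) fun n hn => (mem_filter.1 hn).2)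

/-- **Windows around dilates of arbitrary sequences.** -/
theorem bc_all (bad : ℕ → ℕ → Prop) (v w : ℕ → ℝ) (hv : ∀ k, 0 < v k) (hw : ∀ k, 0 ≤ w k ∧ w k ≤ v k)
    (hs : ∀ D : ℕ, ∃ g : ℕ → ℝ, Summable g ∧ (∀ k, 0 ≤ g k) ∧ ∀ k : ℕ, ∀ S : Finset ℕ, S ⊆ Icc 1 ⌊((D : ℝ) + 1) * v k⌋₊ →
      (∀ n ∈ S, bad k n) → (S.card : ℝ) * (2 * w k / v k) ≤ g k) :
    ∀ᵐ α : ℝ, 0 < α → ∀ᶠ k : ℕ in atTop, ∀ n : ℕ, 1 ≤ n → |(n : ℝ) - α * v k| ≤ w k → ¬ bad k n := by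
  have hkey : ∀ D : ℕ, ∀ᵐ α : ℝ, ∀ᶠ k : ℕ in atTop, α ∉ HitR (bad k) D (v k) (w k) := by
    intro D
    obtain ⟨g, hg, hg0, hgk⟩ := hs D
    have hsum : ∑' k : ℕ, volume (HitR (bad k) D (v k) (w k)) ≠ ⊤ := by
      refine ne_top_of_le_ne_top ?_ (ENNReal.tsum_le_tsum (fun k => hitR_vol (bad k) D (v k) (w k) (g k) (hv k)
        (hw k).1 (hw k).2 (hgk k)))
      exact hg.tsum_ofReal_ne_top
    exact ae_eventually_notMem hsum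
  have hall : ∀ᵐ α : ℝ, ∀ D : ℕ, ∀ᶠ k : ℕ in atTop, α ∉ HitR (bad k) D (v k) (w k) := by
    rw [ae_all_iff]
    exact hkey
  filter_upwards [hall] with α hα hα0
  obtain ⟨D, hD⟩ := exists_nat_ge α
  filter_upwards [hα D] with k hk n hn1 hn2 hbn
  exact hk ⟨hα0, hD, n, hn1, hn2, hbn⟩

end Pool.Agent.Q319.DR
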