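import Pool.Agent.Q319.DR.Sp

/-!
# The forms of the two theorems with one fixed exponent
-/

set_option autoImplicit false

namespace Pool.Agent.Q319.DR

open Finset MeasureTheory Filter

/-- for large `N` at most `N / log ^ U N` of the integers between `1` and `B N` are bad at the scale `N` -/
def SparseAt (bad : ℕ → ℕ → Prop) (B U : ℕ) : Prop :=
  ∃ N₀ : ℕ, ∀ N : ℕ, N₀ ≤ N → ∀ S : Finset ℕ, S ⊆ Icc 1 (B * N) → (∀ n ∈ S, bad N n) →
    (S.card : ℝ) ≤ N / Real.log N ^ U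

open Classical in
/-- Multiples of almost all real numbers, with a fixed exponent; `κ` depends on `θ` only. -/
theorem mult_one (θ : ℝ) (hθ : 0 < θ) (hθ1 : θ < 1) : ∃ κ : ℝ, 0 < κ ∧ ∀ A U : ℕ, ∃ N₀ : ℕ, ∀ N : ℕ, N₀ ≤ N →
    ∀ bad : ℕ → Prop, (∀ S : Finset ℕ, S ⊆ Icc 1 (4 * N) → (∀ n ∈ S, bad n) →
      (S.card : ℝ) ≤ N / Real.log N ^ (U + A + 2)) →
    ∃ E : Set ℝ, MeasurableSet E ∧ volume E ≤ ENNReal.ofReal ((N : ℝ) ^ (1 - θ - κ)) ∧
      ∀ y : ℝ, (N : ℝ) ^ (1 - θ) ≤ y → y ≤ 2 * (N : ℝ) ^ (1 - θ) → y ∉ E →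
        (((Icc 1 ⌊(N : ℝ) ^ θ⌋₊).filter (fun k : ℕ => ∃ q : ℕ, |(q : ℝ) - k * y| ≤ Real.log N ^ A ∧ bad q)).card : ℝ) ≤
          (N : ℝ) ^ θ / Real.log N ^ U := by
  obtain ⟨κ, hκ, h⟩ := mult_set θ hθ hθ1
  refine ⟨κ, hκ, fun A U => ?_⟩
  obtain ⟨N₁, h1⟩ := h A U
  have hex : ∀ᶠ Y : ℝ in atTop, 2 * Real.log Y ^ A ≤ Y ^ ((1 - θ) : ℝ) ∧ 1 ≤ Real.log Y ∧ 1 ≤ Y := by
    filter_upwards [ev_pow (1 - θ) (by linarith) A 2, ev_log 1, eventually_ge_atTop (1 : ℝ)] with Y a b c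
    exact ⟨a, b, c⟩
  obtain ⟨N₃, h3⟩ := (tendsto_natCast_atTop_atTop.eventually hex).exists_forall_of_atTop
  refine ⟨N₁ + N₃ + 1, fun N hN bad h2 => ?_⟩
  obtain ⟨g1, g2, g3⟩ := h3 N (by omega)
  obtain ⟨E, hE1, hE2, hE3⟩ := h1 N (by omega) ((Icc 1 (4 * N)).filter bad)
    (h2 _ (filter_subset _ _) fun n hn => (mem_filter.1 hn).2)
  refine ⟨E, hE1, hE2, fun y hy1 hy2 hyE => le_trans ?_ (hE3 y hy1 hy2 hyE)⟩
  apply Nat.cast_le.2
  apply card_le_card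
  intro k hk
  rw [mem_filter, mem_Icc] at hk ⊢
  obtain ⟨⟨hk1, hk2⟩, q, hq1, hq2⟩ := hk
  refine ⟨⟨hk1, hk2⟩, q, ?_, hq1⟩
  rw [mem_filter, mem_Icc]
  obtain ⟨hq3, hq4⟩ := abs_le.1 hq1
  have hN0 : (0 : ℝ) < N := by linarith
  have hkN : (k : ℝ) ≤ (N : ℝ) ^ θ := (Nat.le_floor_iff (by positivity)).1 hk2
  have hk1R : (1 : ℝ) ≤ k := by exact_mod_cast hk1
  have hY0 : 0 < (N : ℝ) ^ (1 - θ) := by positivity
  have hLA : 1 ≤ Real.log N ^ A := one_le_pow₀ g2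
  have hYN : (N : ℝ) ^ θ * (N : ℝ) ^ (1 - θ) = N := by
    rw [← Real.rpow_add hN0]
    simp
  have hYN1 : (N : ℝ) ^ (1 - θ) ≤ N := by
    calc (N : ℝ) ^ (1 - θ) ≤ (N : ℝ) ^ (1 : ℝ) := Real.rpow_le_rpow_of_exponent_le g3 (by linarith)
      _ = N := Real.rpow_one _
  refine ⟨⟨?_, ?_⟩, hq2⟩
  · have h5 : 0 < (q : ℝ) := by nlinarith
    exact_mod_cast h5
  · have h5 : (k : ℝ) * y ≤ (N : ℝ) ^ θ * (2 * (N : ℝ) ^ (1 - θ)) := by
      apply mul_le_mul hkN hy2 (by linarith) (by positivity)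
    have h6 : (q : ℝ) ≤ 4 * N := by nlinarith
    exact_mod_cast h6

lemma hit_vol1 (bad : ℕ → ℕ → Prop) (D U : ℕ) (hbad : SparseAt bad (D + 1) U) : ∃ N₀ : ℕ, ∀ (N : ℕ) (h : ℝ), N₀ ≤ N → 1 ≤ h → h ≤ N →
    volume (Hit bad D N h) ≤ ENNReal.ofReal (4 * h / Real.log N ^ U) := by
  classical
  obtain ⟨N₁, h1⟩ := hbad
  have hex : ∀ᶠ Y : ℝ in atTop, 1 * Real.log Y ^ U ≤ Y ^ (1 : ℝ) ∧ 1 ≤ Real.log Y ∧ 1 ≤ Y := by
    filter_upwards [ev_pow 1 one_pos U 1, ev_log 1, eventually_ge_atTop (1 : ℝ)] with Y a b c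
    exact ⟨a, b, c⟩
  obtain ⟨N₂, h2⟩ := (tendsto_natCast_atTop_atTop.eventually hex).exists_forall_of_atTop
  refine ⟨N₁ + N₂, fun N h hN hh hhN => ?_⟩
  obtain ⟨g1, g2, g3⟩ := h2 N (by omega)
  rw [one_mul, Real.rpow_one] at g1
  have hN0 : (0 : ℝ) < N := by linarith
  set S : Finset ℕ := (Icc 1 ((D + 1) * N)).filter (bad N) with hS
  have hScard : (S.card : ℝ) ≤ N / Real.log N ^ U :=
    h1 N (by omega) S (filter_subset _ _) fun n hn => (mem_filter.1 hn).2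
  have hLb : 0 < Real.log N := by linarith
  have hLbU : 0 < Real.log N ^ U := by positivity
  have hsub : Hit bad D N h ⊆ ⋃ q ∈ insert 0 S, Set.Icc (((q : ℝ) - h) / N) (((q : ℝ) + h) / N) := by
    rintro α ⟨hα0, hα1, q, hq1, hq2⟩
    obtain ⟨hq3, hq4⟩ := abs_le.1 hq1
    rw [Set.mem_iUnion₂]
    refine ⟨q, ?_, ?_⟩
    · rw [mem_insert]
      rcases Nat.eq_zero_or_pos q with h0 | h0
      · exact Or.inl h0
      · right
        rw [hS, mem_filter, mem_Icc]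
        refine ⟨⟨h0, ?_⟩, hq2⟩
        have h5 : (q : ℝ) ≤ (((D + 1) * N : ℕ) : ℝ) := by
          have : α * N ≤ D * N := by gcongr
          push_cast
          linarith
        exact_mod_cast h5
    · rw [Set.mem_Icc, div_le_iff₀ hN0, le_div_iff₀ hN0]
      constructor <;> linarith
  refine (measure_mono hsub).trans ((measure_biUnion_finset_le _ _).trans ?_)
  have h2 : ∀ q ∈ insert 0 S, volume (Set.Icc (((q : ℝ) - h) / N) (((q : ℝ) + h) / N)) ≤ ENNReal.ofReal (2 * h / N) := by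
    intro q _
    rw [Real.volume_Icc]
    apply le_of_eq
    congr 1
    field_simp
    ring
  refine (Finset.sum_le_sum h2).trans ?_
  rw [sum_const, nsmul_eq_mul, ← ENNReal.ofReal_natCast, ← ENNReal.ofReal_mul (Nat.cast_nonneg _)]
  apply ENNReal.ofReal_le_ofReal
  have h3 : ((insert 0 S).card : ℝ) ≤ S.card + 1 := by exact_mod_cast card_insert_le _ _
  have h4 : (1 : ℝ) ≤ N / Real.log N ^ U := by
    rw [le_div_iff₀ hLbU]
    linarith
  calc ((insert 0 S).card : ℝ) * (2 * h / N) ≤ (N / Real.log N ^ U + N / Real.log N ^ U) * (2 * h / N) := by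
        apply mul_le_mul_of_nonneg_right _ (by positivity)
        linarith
    _ = 4 * h / Real.log N ^ U := by field_simp; ring

/-- Dilates of rapidly growing sequences, with a fixed exponent. -/
theorem lac_one (bad : ℕ → ℕ → Prop) (A D m : ℕ) (δ : ℝ) (hδ : 0 < δ) (hm : 2 / δ < m) (hbad : SparseAt bad (D + 1) (A + m))
    (b : ℕ → ℕ) (hb : ∀ᶠ k : ℕ in atTop, Real.exp ((k : ℝ) ^ δ) ≤ b k) :
    ∀ᵐ α : ℝ, 0 < α → α ≤ D → ∀ᶠ k : ℕ in atTop, ∀ q : ℕ, |(q : ℝ) - α * b k| ≤ Real.log (b k) ^ A → ¬ bad (b k) q := by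
  have hbt : Tendsto (fun k => ((b k : ℕ) : ℝ)) atTop atTop := by
    have h1 : Tendsto (fun k : ℕ => Real.exp ((k : ℝ) ^ δ)) atTop atTop :=
      Real.tendsto_exp_atTop.comp ((tendsto_rpow_atTop hδ).comp tendsto_natCast_atTop_atTop)
    exact tendsto_atTop_mono' _ hb h1
  have hkey : ∀ᵐ α : ℝ, ∀ᶠ k : ℕ in atTop, α ∉ Hit bad D (b k) (Real.log (b k) ^ A) := by
    obtain ⟨N₀, hN₀⟩ := hit_vol1 bad D (A + m) hbad
    have hev : ∀ᶠ k : ℕ in atTop, volume (Hit bad D (b k) (Real.log (b k) ^ A)) ≤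
        ENNReal.ofReal (4 * (1 / (k : ℝ) ^ 2)) := by
      have e1 : ∀ᶠ k : ℕ in atTop, (N₀ : ℝ) ≤ b k := hbt.eventually_ge_atTop _
      have e2 : ∀ᶠ k : ℕ in atTop, 1 * Real.log (b k) ^ A ≤ ((b k : ℕ) : ℝ) ^ (1 : ℝ) :=
        hbt.eventually (ev_pow 1 one_pos A 1)
      have e3 : ∀ᶠ k : ℕ in atTop, 1 ≤ Real.log (b k) := hbt.eventually (ev_log 1)
      filter_upwards [e1, e2, e3, hb, eventually_ge_atTop 1] with k f1 f2 f3 f4 f5
      rw [one_mul, Real.rpow_one] at f2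
      refine (hN₀ (b k) (Real.log (b k) ^ A) (by exact_mod_cast f1) (one_le_pow₀ f3) f2).trans
        (ENNReal.ofReal_le_ofReal ?_)
      have hk1 : (1 : ℝ) ≤ k := by exact_mod_cast f5
      have hlog : (k : ℝ) ^ δ ≤ Real.log (b k) := by
        rw [Real.le_log_iff_exp_le (lt_of_lt_of_le (Real.exp_pos _) f4)]
        exact f4
      have hL0 : 0 < Real.log (b k) := by linarith
      have h2 : (k : ℝ) ^ 2 ≤ Real.log (b k) ^ m := by
        calc (k : ℝ) ^ 2 = (k : ℝ) ^ ((2 : ℕ) : ℝ) := (Real.rpow_natCast _ _).symm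
          _ ≤ (k : ℝ) ^ (δ * m) := by
            apply Real.rpow_le_rpow_of_exponent_le hk1
            rw [div_lt_iff₀ hδ] at hm
            push_cast
            linarith
          _ = ((k : ℝ) ^ δ) ^ m := by rw [Real.rpow_mul (by linarith), Real.rpow_natCast]
          _ ≤ _ := pow_le_pow_left₀ (by positivity) hlog _
      have h3 : 4 * Real.log (b k) ^ A / Real.log (b k) ^ (A + m) = 4 * (1 / Real.log (b k) ^ m) := by
        rw [pow_add]
        field_simp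
      rw [h3]
      have h4 : 1 / Real.log (b k) ^ m ≤ 1 / (k : ℝ) ^ 2 := by
        apply one_div_le_one_div_of_le (by positivity) h2
      linarith
    obtain ⟨K, hK⟩ := hev.exists_forall_of_atTop
    have hsum : ∑' j : ℕ, volume (Hit bad D (b (j + (K + 1))) (Real.log (b (j + (K + 1))) ^ A)) ≠ ⊤ := by
      have hs : Summable (fun j : ℕ => 4 * (1 / ((j + (K + 1) : ℕ) : ℝ) ^ 2)) := by
        apply Summable.mul_left
        exact (summable_nat_add_iff (K + 1)).2 (Real.summable_one_div_nat_pow.2 (by norm_num))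
      refine ne_top_of_le_ne_top ?_ (ENNReal.tsum_le_tsum (fun j => hK (j + (K + 1)) (by omega)))
      exact hs.tsum_ofReal_ne_top
    have h5 := ae_eventually_notMem hsum
    filter_upwards [h5] with α hα
    obtain ⟨J, hJ⟩ := hα.exists_forall_of_atTop
    refine eventually_atTop.2 ⟨J + (K + 1), fun k hk => ?_⟩
    have h6 := hJ (k - (K + 1)) (by omega)
    rwa [Nat.sub_add_cancel (by omega)] at h6
  filter_upwards [hkey] with α hα hα0 hαD
  filter_upwards [hα] with k hk q hq hbq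
  exact hk ⟨hα0, hαD, q, hq, hbq⟩

end Pool.Agent.Q319.DR
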