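import Pool.Agent.Q319.DR.One

/-!
# Properties of an integer which do not depend on the scale
-/

set_option autoImplicit false

namespace Pool.Agent.Q319.DR

open Finset MeasureTheory Filter

/-- the energy of order one of an injective family -/
lemma energy_inj {ι : Type} [Fintype ι] (v : ι → ℤ) (hv : Function.Injective v) :
    Nat.card {q : (Fin 1 → ι) × (Fin 1 → ι) // ∑ j, v (q.1 j) = ∑ j, v (q.2 j)} = Fintype.card ι := by
  rw [← Nat.card_eq_fintype_card]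
  refine Nat.card_congr ⟨fun q => q.1.1 0, fun i => ⟨(fun _ => i, fun _ => i), rfl⟩, ?_, fun i => rfl⟩
  rintro ⟨⟨a, b⟩, h⟩
  simp only [Finset.univ_unique, Fin.default_eq_zero, Finset.sum_singleton] at h
  have h1 : a 0 = b 0 := hv h
  apply Subtype.ext
  refine Prod.ext ?_ ?_
  · funext i; rw [Subsingleton.elim i 0]
  · funext i; rw [Subsingleton.elim i 0]; exact h1

/-- a property which is known for almost all integers `q` between `N / log ^ κ N` and `N`, for all `κ` -/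
theorem sparse_own (bad : ℕ → Prop) (h : ∀ U : ℕ, ∃ N₀ : ℕ, ∀ N : ℕ, N₀ ≤ N → ∀ S : Finset ℕ, S ⊆ Icc 1 N →
    (∀ q ∈ S, (N : ℝ) ≤ q * Real.log N ^ U ∧ bad q) → (S.card : ℝ) ≤ N / Real.log N ^ U) :
    Sparse (fun _ q => bad q) := by
  classical
  intro B U
  obtain ⟨N₀, h0⟩ := h (U + 1)
  obtain ⟨N₁, h1⟩ := scale B U
  refine ⟨N₀ + N₁, fun N hN S hS hSb => ?_⟩
  obtain ⟨g1, g2, g3, g4⟩ := h1 N (by omega)
  obtain ⟨M, hM⟩ : ∃ M : ℕ, M = (B + 1) * N := ⟨_, rfl⟩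
  rw [← hM] at g3 g4
  have hNM : N ≤ M := by rw [hM]; exact Nat.le_mul_of_pos_left N (by omega)
  have hSM : S ⊆ Icc 1 M := hS.trans (Icc_subset_Icc le_rfl (by rw [hM]; exact Nat.mul_le_mul_right _ (by omega)))
  set L := Real.log (M : ℝ) with hL
  have hL1 : 1 ≤ L := g2.trans g3
  have hL0 : 0 < L := by linarith
  have hM0 : (0 : ℝ) < M := by exact_mod_cast (by omega : 0 < M)
  have hs : ((S.filter (fun q : ℕ => (q : ℝ) * L ^ (U + 1) < M)).card : ℝ) ≤ M / L ^ (U + 1) := by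
    have h2 : S.filter (fun q : ℕ => (q : ℝ) * L ^ (U + 1) < M) ⊆ Icc 1 ⌊(M : ℝ) / L ^ (U + 1)⌋₊ := by
      intro q hq
      rw [mem_filter] at hq
      rw [mem_Icc]
      refine ⟨(mem_Icc.1 (hSM hq.1)).1, Nat.le_floor ?_⟩
      rw [le_div_iff₀ (by positivity)]
      exact hq.2.le
    have h3 := card_le_card h2
    rw [Nat.card_Icc, Nat.add_sub_cancel] at h3
    calc ((S.filter (fun q : ℕ => (q : ℝ) * L ^ (U + 1) < M)).card : ℝ) ≤ (⌊(M : ℝ) / L ^ (U + 1)⌋₊ : ℕ) := by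
          exact_mod_cast h3
      _ ≤ _ := Nat.floor_le (by positivity)
  have hb : ((S.filter (fun q : ℕ => ¬ (q : ℝ) * L ^ (U + 1) < M)).card : ℝ) ≤ M / L ^ (U + 1) := by
    refine h0 M (by omega) _ ((filter_subset _ _).trans hSM) ?_
    intro q hq
    rw [mem_filter, not_lt] at hq
    exact ⟨hq.2, hSb q hq.1⟩
  have hcard : (S.card : ℝ) = ((S.filter (fun q : ℕ => (q : ℝ) * L ^ (U + 1) < M)).card : ℝ) +
      ((S.filter (fun q : ℕ => ¬ (q : ℝ) * L ^ (U + 1) < M)).card : ℝ) := by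
    exact_mod_cast (card_filter_add_card_filter_not _).symm
  have h9 : 0 ≤ (M : ℝ) / L ^ (U + 1) := by positivity
  have h8 : 3 * (M : ℝ) / L ^ (U + 1) = 3 * ((M : ℝ) / L ^ (U + 1)) := by ring
  rw [h8] at g4
  linarith

/-- the form for one set of exceptions -/
theorem sparse_set (T : Set ℕ) (h : ∀ U : ℕ, ∃ N₀ : ℕ, ∀ N : ℕ, N₀ ≤ N → ((T ∩ Set.Icc 1 N).ncard : ℝ) ≤ N / Real.log N ^ U) :
    Sparse (fun _ q => q ∈ T) := by
  classical
  intro B U
  obtain ⟨N₀, h0⟩ := h (U + 1)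
  obtain ⟨N₁, h1⟩ := scale B U
  refine ⟨N₀ + N₁, fun N hN S hS hSb => ?_⟩
  obtain ⟨g1, g2, g3, g4⟩ := h1 N (by omega)
  have hNM : N ≤ (B + 1) * N := Nat.le_mul_of_pos_left N (by omega)
  have h2 : (S.card : ℝ) ≤ ((T ∩ Set.Icc 1 ((B + 1) * N)).ncard : ℝ) := by
    have h3 : (S : Set ℕ) ⊆ T ∩ Set.Icc 1 ((B + 1) * N) := by
      intro q hq
      have hq' : q ∈ S := hq
      have h4 := mem_Icc.1 (hS hq')
      exact ⟨hSb q hq', h4.1, h4.2.trans (Nat.mul_le_mul_right _ (by omega))⟩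
    have h5 := Set.ncard_le_ncard h3 ((Set.finite_Icc 1 ((B + 1) * N)).subset Set.inter_subset_right)
    rw [Set.ncard_coe_finset] at h5
    exact_mod_cast h5
  refine h2.trans ((h0 ((B + 1) * N) (by omega)).trans (le_trans ?_ g4))
  apply div_le_div_of_nonneg_right _ (by positivity)
  have : (0 : ℝ) ≤ (((B + 1) * N : ℕ) : ℝ) := Nat.cast_nonneg _
  linarith

/-- bad for one of the natural numbers `n` instead of `0`: all large dilates, for countably many properties at once -/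
theorem lac_all_count (bad : ℕ → ℕ → ℕ → Prop) (hbad : ∀ n, Sparse (bad n)) (b : ℕ → ℕ) (δ : ℝ) (hδ : 0 < δ)
    (hb : ∀ᶠ k : ℕ in atTop, Real.exp ((k : ℝ) ^ δ) ≤ b k) :
    ∀ᵐ α : ℝ, 0 < α → ∀ A n : ℕ, ∀ᶠ k : ℕ in atTop, ∀ q : ℕ, |(q : ℝ) - α * b k| ≤ Real.log (b k) ^ A →
      ¬ bad n (b k) q := by
  have h1 : ∀ᵐ α : ℝ, ∀ A n : ℕ, 0 < α → ∀ᶠ k : ℕ in atTop, ∀ q : ℕ, |(q : ℝ) - α * b k| ≤ Real.log (b k) ^ A →
      ¬ bad n (b k) q := by
    rw [ae_all_iff]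
    intro A
    rw [ae_all_iff]
    intro n
    exact lac_all (bad n) (hbad n) A b δ hδ hb
  filter_upwards [h1] with α hα hα0 A n
  exact hα A n hα0

end Pool.Agent.Q319.DR
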