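import Pool.Agent.Q319.DR.Lac
import Pool.Agent.H373R2.T7.EnergyDef

/-!
# Sparse sets from theorems about families of integers
-/

set_option autoImplicit false

namespace Pool.Agent.Q319.DR

open Finset MeasureTheory Filter

/-- the energy of order one of the family of all integers up to `x` -/
lemma energy_id (x : ℕ) : Pool.Agent.H373R2.T7.energy 1 x (fun m => (m : ℤ)) = x := by
  classical
  unfold Pool.Agent.H373R2.T7.energy
  have h : ((Fintype.piFinset fun _ : Fin 1 => Icc 1 x) ×ˢ (Fintype.piFinset fun _ : Fin 1 => Icc 1 x)).filter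
      (fun q => ∑ i, ((q.1 i : ℕ) : ℤ) = ∑ i, ((q.2 i : ℕ) : ℤ)) = (Icc 1 x).image (fun m => ((fun _ => m), (fun _ => m))) := by
    ext q
    rw [mem_filter, mem_product, Fintype.mem_piFinset, Fintype.mem_piFinset, mem_image]
    constructor
    · rintro ⟨⟨h1, h2⟩, h3⟩
      simp only [Finset.univ_unique, Fin.default_eq_zero, Finset.sum_singleton] at h3
      refine ⟨q.1 0, h1 0, ?_⟩
      have h4 : q.1 0 = q.2 0 := by exact_mod_cast h3
      refine Prod.ext ?_ ?_
      · funext i; rw [Subsingleton.elim i 0]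
      · funext i; rw [Subsingleton.elim i 0]; exact h4
    · rintro ⟨m, hm, rfl⟩
      exact ⟨⟨fun _ => hm, fun _ => hm⟩, rfl⟩
  rw [h, card_image_of_injective, Nat.card_Icc, Nat.add_sub_cancel]
  intro a b hab
  exact congrFun (congrArg Prod.fst hab) 0

/-- the scale `B N` instead of `N` -/
lemma scale (B U : ℕ) : ∃ N₀ : ℕ, ∀ N : ℕ, N₀ ≤ N → 1 ≤ N ∧ 1 ≤ Real.log N ∧ Real.log N ≤ Real.log ((B + 1) * N : ℕ) ∧
    3 * (((B + 1) * N : ℕ) : ℝ) / Real.log ((B + 1) * N : ℕ) ^ (U + 1) ≤ N / Real.log N ^ U := by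
  obtain ⟨N₀, h0⟩ := (tendsto_natCast_atTop_atTop.eventually (ev_log (3 * (B + 1)))).exists_forall_of_atTop
  refine ⟨N₀ + 1, fun N hN => ?_⟩
  have h1 := h0 N (by omega)
  have hN1 : 1 ≤ N := by omega
  have hNR : (0 : ℝ) < N := by exact_mod_cast hN1
  have hB : (0 : ℝ) ≤ B := Nat.cast_nonneg _
  have hL : 1 ≤ Real.log N := by linarith
  have hle : Real.log N ≤ Real.log ((B + 1) * N : ℕ) := by
    apply Real.log_le_log hNR
    exact_mod_cast Nat.le_mul_of_pos_left N (by omega)
  refine ⟨hN1, hL, hle, ?_⟩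
  have hL0 : 0 < Real.log N := by linarith
  have hL0' : 0 < Real.log ((B + 1) * N : ℕ) := by linarith
  rw [div_le_div_iff₀ (by positivity) (by positivity)]
  calc 3 * (((B + 1) * N : ℕ) : ℝ) * Real.log N ^ U = N * ((3 * (B + 1)) * Real.log N ^ U) := by push_cast; ring
    _ ≤ N * (Real.log ((B + 1) * N : ℕ) * Real.log ((B + 1) * N : ℕ) ^ U) := by
      gcongr
      linarith
    _ = _ := by ring

end Pool.Agent.Q319.DR
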