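import Pool.Agent.Q319.DR.Win

/-!
# From laws for almost all twists to windows at the multiples of almost all real numbers
-/

set_option autoImplicit false

namespace Pool.Agent.Q319.DR

open Finset MeasureTheory Filter

open Classical in
/-- The number of the `k` with `1 ≤ k ≤ K` such that for some integer `D ≠ 0` whose absolute value is at a distance of at
most `w` from `k y` the property `Q x D` holds for some natural number `x` with `u ≤ x ≤ v`. -/
noncomputable def twistExceptions (Q : ℕ → ℤ → Prop) (K y w u v : ℝ) : ℕ :=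
  ((Icc 1 ⌊K⌋₊).filter (fun k : ℕ => ∃ D : ℤ, D ≠ 0 ∧ |(|(D : ℝ)|) - k * y| ≤ w ∧
    ∃ x : ℕ, u ≤ x ∧ (x : ℝ) ≤ v ∧ Q x D)).card

theorem twist_windows (Q : ℕ → ℤ → Prop)
    (h : ∃ C c : ℝ, 0 < C ∧ 0 < c ∧ ∃ N₀ : ℕ, ∀ N : ℕ, N₀ ≤ N →
      ({D : ℤ | D ≠ 0 ∧ |D| ≤ N ∧ ∃ x : ℕ, (Real.log N) ^ C ≤ x ∧ (x : ℝ) ≤ (N : ℝ) ^ c ∧ Q x D}.ncard : ℝ) ≤
        (N : ℝ) ^ (1 - c)) (θ : ℝ) (hθ : 0 < θ) (hθ1 : θ < 1) :
    ∃ C c : ℝ, 0 < C ∧ 0 < c ∧ ∃ N₀ : ℕ, ∀ N : ℕ, N₀ ≤ N →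
      ∃ E : Set ℝ, MeasurableSet E ∧ volume E ≤ ENNReal.ofReal ((N : ℝ) ^ (1 - θ - c)) ∧
      ∀ y : ℝ, (N : ℝ) ^ (1 - θ) ≤ y → y ≤ 2 * (N : ℝ) ^ (1 - θ) → y ∉ E →
        (twistExceptions Q ((N : ℝ) ^ θ) y ((N : ℝ) ^ c) (Real.log N ^ C) ((N : ℝ) ^ c) : ℝ) ≤ (N : ℝ) ^ (θ - c) := by
  classical
  obtain ⟨C, c, hC, hc, N₀, h⟩ := h
  obtain ⟨N₁, h1⟩ := eventually_atTop.1
    ((Real.tendsto_log_atTop.comp tendsto_natCast_atTop_atTop).eventually_ge_atTop (max 2 ((2 : ℝ) ^ C)))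
  obtain ⟨c₁, hc₁, N₂, h2⟩ := win_mult θ hθ hθ1 c hc
    (fun N D => D ≠ 0 ∧ ∃ x : ℕ, (Real.log N) ^ (C + 1) ≤ x ∧ (x : ℝ) ≤ (N : ℝ) ^ c ∧ Q x D) 4 (N₀ + N₁ + 4) (by
      intro N hN F hF
      have hN4 : (4 : ℝ) ≤ N := by exact_mod_cast (by omega : 4 ≤ N)
      have hN0 : (0 : ℝ) < N := by linarith
      have hl := h1 N (by omega)
      simp only [Function.comp_apply] at hl
      have hl2 : 2 ≤ Real.log N := (le_max_left _ _).trans hl
      have hlC : (2 : ℝ) ^ C ≤ Real.log N := (le_max_right _ _).trans hl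
      have hlog4 : Real.log ((4 * N : ℕ) : ℝ) ≤ 2 * Real.log N := by
        push_cast
        rw [Real.log_mul (by norm_num) hN0.ne']
        have := Real.log_le_log (by norm_num) hN4
        linarith
      have hlog0 : 0 ≤ Real.log ((4 * N : ℕ) : ℝ) := Real.log_nonneg (by push_cast; linarith)
      have h3 := h (4 * N) (by omega)
      have h4 : (F.card : ℝ) ≤ ({D : ℤ | D ≠ 0 ∧ |D| ≤ ((4 * N : ℕ) : ℤ) ∧ ∃ x : ℕ,
          (Real.log ((4 * N : ℕ) : ℝ)) ^ C ≤ x ∧ (x : ℝ) ≤ ((4 * N : ℕ) : ℝ) ^ c ∧ Q x D}.ncard : ℝ) := by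
        rw [← Set.ncard_coe_finset]
        apply Nat.cast_le.2
        apply Set.ncard_le_ncard
        · intro D hD
          obtain ⟨e1, e2, x, e3, e4, e5⟩ := hF D hD
          refine ⟨e2, ?_, x, ?_, ?_, e5⟩
          · have : ((|D| : ℤ) : ℝ) ≤ (((4 * N : ℕ) : ℤ) : ℝ) := by
              push_cast
              exact e1
            exact_mod_cast this
          · calc (Real.log ((4 * N : ℕ) : ℝ)) ^ C ≤ (2 * Real.log N) ^ C :=
                  Real.rpow_le_rpow hlog0 hlog4 hC.le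
              _ = (2 : ℝ) ^ C * Real.log N ^ C := Real.mul_rpow (by norm_num) (by linarith)
              _ ≤ Real.log N * Real.log N ^ C := by
                  apply mul_le_mul_of_nonneg_right hlC
                  exact Real.rpow_nonneg (by linarith) _
              _ = Real.log N ^ (C + 1) := by
                  rw [Real.rpow_add (by linarith), Real.rpow_one]
                  ring
              _ ≤ x := e3
          · refine e4.trans (Real.rpow_le_rpow hN0.le ?_ hc.le)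
            push_cast
            linarith
        · refine (Set.finite_Icc (-((4 * N : ℕ) : ℤ)) ((4 * N : ℕ) : ℤ)).subset fun D hD => ?_
          exact Set.mem_Icc.2 (abs_le.1 hD.2.1)
      refine h4.trans (h3.trans ?_)
      push_cast
      rw [Real.mul_rpow (by norm_num) hN0.le]
      apply mul_le_mul_of_nonneg_right _ (by positivity)
      calc (4 : ℝ) ^ (1 - c) ≤ (4 : ℝ) ^ (1 : ℝ) := Real.rpow_le_rpow_of_exponent_le (by norm_num) (by linarith)
        _ = 4 := Real.rpow_one _)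
  refine ⟨C + 1, min c₁ c, by linarith, lt_min hc₁ hc, N₂ + 1, fun N hN => ?_⟩
  obtain ⟨E, hE1, hE2, hE3⟩ := h2 N (by omega)
  have hN1 : (1 : ℝ) ≤ N := by exact_mod_cast (by omega : 1 ≤ N)
  have hm1 : min c₁ c ≤ c₁ := min_le_left _ _
  have hm2 : min c₁ c ≤ c := min_le_right _ _
  refine ⟨E, hE1, hE2.trans (ENNReal.ofReal_le_ofReal
    (Real.rpow_le_rpow_of_exponent_le hN1 (by linarith))), fun y hy1 hy2 hyE => ?_⟩
  refine le_trans ?_ ((hE3 y hy1 hy2 hyE).trans (Real.rpow_le_rpow_of_exponent_le hN1 (by linarith)))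
  unfold twistExceptions
  apply Nat.cast_le.2
  apply card_le_card
  intro k hk
  rw [mem_filter] at hk ⊢
  obtain ⟨hk1, D, hD0, hD1, x, hx1, hx2, hx3⟩ := hk
  exact ⟨hk1, D, hD1.trans (Real.rpow_le_rpow_of_exponent_le hN1 hm1), hD0, x, hx1,
    hx2.trans (Real.rpow_le_rpow_of_exponent_le hN1 hm2), hx3⟩

end Pool.Agent.Q319.DR
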