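import Pool.Agent.Q319.DR.MultP1

/-!
# Sparse sets of integers of both signs and windows at the multiples of almost all real numbers
-/

set_option autoImplicit false

namespace Pool.Agent.Q319.DR

open Finset MeasureTheory Filter

/-- a set of natural numbers `n`, each of which is the absolute value of an element of a set of integers -/
lemma nat_of_int (P : ℤ → Prop) (K : ℝ) (S : Finset ℕ) (hS : ∀ n ∈ S, ∃ x : ℤ, |(x : ℝ)| = n ∧ P x)
    (h : ∀ F : Finset ℤ, (∀ x ∈ F, P x ∧ |x| ∈ (S.image (fun n : ℕ => (n : ℤ)))) → (F.card : ℝ) ≤ K) :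
    (S.card : ℝ) ≤ K := by
  classical
  choose! f hf using hS
  have hinj : Set.InjOn f S := by
    intro a ha a' ha' e
    have h1 := (hf a ha).1
    have h2 := (hf a' ha').1
    rw [e] at h1
    have h3 : (a : ℝ) = a' := by rw [← h1, ← h2]
    exact_mod_cast h3
  rw [← card_image_of_injOn hinj]
  apply h
  intro x hx
  rw [mem_image] at hx
  obtain ⟨n, hn, rfl⟩ := hx
  refine ⟨(hf n hn).2, mem_image.2 ⟨n, hn, ?_⟩⟩
  have h1 := (hf n hn).1
  exact_mod_cast h1.symm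

open Classical in
/-- **Multiples**, integers of both signs, a property which may depend on the scale. -/
theorem win_mult (θ : ℝ) (hθ : 0 < θ) (hθ1 : θ < 1) (κ : ℝ) (hκ : 0 < κ) (P : ℕ → ℤ → Prop) (C : ℝ) (N₁ : ℕ)
    (hP : ∀ N : ℕ, N₁ ≤ N → ∀ F : Finset ℤ, (∀ x ∈ F, |(x : ℝ)| ≤ 4 * N ∧ P N x) → (F.card : ℝ) ≤ C * (N : ℝ) ^ (1 - κ)) :
    ∃ c : ℝ, 0 < c ∧ ∃ N₀ : ℕ, ∀ N : ℕ, N₀ ≤ N →
      ∃ E : Set ℝ, MeasurableSet E ∧ volume E ≤ ENNReal.ofReal ((N : ℝ) ^ (1 - θ - c)) ∧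
      ∀ y : ℝ, (N : ℝ) ^ (1 - θ) ≤ y → y ≤ 2 * (N : ℝ) ^ (1 - θ) → y ∉ E →
        (((Icc 1 ⌊(N : ℝ) ^ θ⌋₊).filter (fun k : ℕ => ∃ x : ℤ, |(|(x : ℝ)|) - k * y| ≤ (N : ℝ) ^ c ∧ P N x)).card : ℝ) ≤
          (N : ℝ) ^ (θ - c) := by
  obtain ⟨c, hc, h⟩ := mult_oneP θ hθ hθ1 κ hκ
  refine ⟨c, hc, ?_⟩
  obtain ⟨N₂, h2⟩ := h C
  refine ⟨N₁ + N₂, fun N hN => ?_⟩
  obtain ⟨E, hE1, hE2, hE3⟩ := h2 N (by omega) (fun n => ∃ x : ℤ, |(x : ℝ)| = n ∧ P N x) (fun S hS hSb => by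
    refine nat_of_int (P N) _ S hSb fun F hF => hP N (by omega) F fun x hx => ?_
    obtain ⟨h3, h4⟩ := hF x hx
    refine ⟨?_, h3⟩
    rw [mem_image] at h4
    obtain ⟨n, hn, h5⟩ := h4
    have h6 := (mem_Icc.1 (hS hn)).2
    have h7 : |(x : ℝ)| = n := by
      have : ((|x| : ℤ) : ℝ) = ((n : ℤ) : ℝ) := by rw [h5]
      push_cast at this
      exact this
    rw [h7]
    exact_mod_cast h6)
  refine ⟨E, hE1, hE2, fun y hy1 hy2 hyE => le_trans ?_ (hE3 y hy1 hy2 hyE)⟩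
  apply Nat.cast_le.2
  apply card_le_card
  intro k hk
  rw [mem_filter] at hk ⊢
  obtain ⟨hk1, x, hx1, hx2⟩ := hk
  refine ⟨hk1, x.natAbs, ?_, x, ?_, hx2⟩
  · rw [Nat.cast_natAbs, Int.cast_abs]
    exact hx1
  · rw [Nat.cast_natAbs, Int.cast_abs]

/-- **Dilates**, integers of both signs. -/
theorem win_bc (κ : ℝ) (P : ℤ → Prop) (C : ℝ)
    (hP : ∀ X : ℝ, 1 ≤ X → ∀ F : Finset ℤ, (∀ x ∈ F, |(x : ℝ)| ≤ X ∧ P x) → (F.card : ℝ) ≤ C * X ^ (1 - κ))
    (v w : ℕ → ℝ) (hv : ∀ k, 1 ≤ v k) (hw : ∀ k, 0 ≤ w k ∧ w k ≤ v k) (hs : Summable (fun k => w k * v k ^ (-κ))) :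
    ∀ᵐ α : ℝ, 0 < α → ∀ᶠ k : ℕ in atTop, ∀ x : ℤ, x ≠ 0 → |(|(x : ℝ)|) - α * v k| ≤ w k → ¬ P x := by
  classical
  have hC : 0 ≤ C := by
    have h1 := hP 1 le_rfl ∅ (by simp)
    simpa using h1
  have h := bc_all (fun _ n => ∃ x : ℤ, |(x : ℝ)| = n ∧ P x) v w (fun k => by have := hv k; linarith) hw (fun D => by
    have hD : (0 : ℝ) ≤ D := Nat.cast_nonneg _
    refine ⟨fun k => (C * ((D : ℝ) + 1) ^ (1 - κ) * 2) * (w k * v k ^ (-κ)), hs.mul_left _, fun k => ?_,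
      fun k S hS hSb => ?_⟩
    · have h1 := hv k
      have h2 := (hw k).1
      have h3 : 0 ≤ v k ^ (-κ) := Real.rpow_nonneg (by linarith) _
      positivity
    · have h1 := hv k
      have h2 := (hw k).1
      have h4 : 0 < v k := by linarith
      have h5 : 1 ≤ ((D : ℝ) + 1) * v k := by nlinarith
      have h6 : (S.card : ℝ) ≤ C * (((D : ℝ) + 1) * v k) ^ (1 - κ) := by
        refine nat_of_int P _ S hSb fun F hF => hP _ h5 F fun x hx => ?_
        obtain ⟨h3, h7⟩ := hF x hx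
        refine ⟨?_, h3⟩
        rw [mem_image] at h7
        obtain ⟨n, hn, h8⟩ := h7
        have h9 := (mem_Icc.1 (hS hn)).2
        have h10 : |(x : ℝ)| = n := by
          have : ((|x| : ℤ) : ℝ) = ((n : ℤ) : ℝ) := by rw [h8]
          push_cast at this
          exact this
        rw [h10]
        exact (Nat.le_floor_iff (by positivity)).1 h9
      calc (S.card : ℝ) * (2 * w k / v k) ≤ (C * (((D : ℝ) + 1) * v k) ^ (1 - κ)) * (2 * w k / v k) :=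
            mul_le_mul_of_nonneg_right h6 (by positivity)
        _ = (C * ((D : ℝ) + 1) ^ (1 - κ) * 2) * (w k * (v k ^ (1 - κ) * (v k)⁻¹)) := by
            rw [Real.mul_rpow (by positivity) h4.le]
            field_simp
        _ = _ := by
            congr 2
            rw [← Real.rpow_neg_one, ← Real.rpow_add h4]
            congr 1
            ring)
  filter_upwards [h] with α hα hα0
  filter_upwards [hα hα0] with k hk x hx0 hx hPx
  refine hk x.natAbs (Int.natAbs_pos.2 hx0) ?_ ⟨x, ?_, hPx⟩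
  · rw [Nat.cast_natAbs, Int.cast_abs]
    exact hx
  · rw [Nat.cast_natAbs, Int.cast_abs]

end Pool.Agent.Q319.DR
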