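import Pool.Agent.Q319.DR.Win
import Pool.Agent.Q319.DR.One

/-!
# Sparse sets of integers of both signs and windows at the multiples of almost all real numbers: logarithmic windows
-/

set_option autoImplicit false

namespace Pool.Agent.Q319.DR

open Finset MeasureTheory Filter

open Classical in
/-- **Multiples**, integers of both signs, windows of logarithmic length. -/
theorem win_log (θ : ℝ) (hθ : 0 < θ) (hθ1 : θ < 1) : ∃ κ : ℝ, 0 < κ ∧ ∀ (A U : ℕ) (P : ℕ → ℤ → Prop) (N₁ : ℕ),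
    (∀ N : ℕ, N₁ ≤ N → ∀ F : Finset ℤ, (∀ x ∈ F, |(x : ℝ)| ≤ 4 * N ∧ P N x) →
      (F.card : ℝ) ≤ N / Real.log N ^ (U + A + 2)) →
    ∃ N₀ : ℕ, ∀ N : ℕ, N₀ ≤ N →
      ∃ E : Set ℝ, MeasurableSet E ∧ volume E ≤ ENNReal.ofReal ((N : ℝ) ^ (1 - θ - κ)) ∧
      ∀ y : ℝ, (N : ℝ) ^ (1 - θ) ≤ y → y ≤ 2 * (N : ℝ) ^ (1 - θ) → y ∉ E →
        (((Icc 1 ⌊(N : ℝ) ^ θ⌋₊).filter (fun k : ℕ => ∃ x : ℤ, |(|(x : ℝ)|) - k * y| ≤ Real.log N ^ A ∧ P N x)).card : ℝ) ≤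
          (N : ℝ) ^ θ / Real.log N ^ U := by
  obtain ⟨κ, hκ, h⟩ := mult_one θ hθ hθ1
  refine ⟨κ, hκ, fun A U P N₁ hP => ?_⟩
  obtain ⟨N₂, h2⟩ := h A U
  refine ⟨N₁ + N₂, fun N hN => ?_⟩
  obtain ⟨E, hE1, hE2, hE3⟩ := h2 N (by omega) (fun n => ∃ x : ℤ, |(x : ℝ)| = n ∧ P N x) (fun S hS hSb => by
    refine nat_of_int (P N) _ S hSb fun F hF => hP N (by omega) F fun x hx => ?_
    obtain ⟨h3, h4⟩ := hF x hx
    refine ⟨?_, h3⟩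
    rw [mem_image] at h4
    obtain ⟨n, hn, h5⟩ := h4
    have h6 := (mem_Icc.1 (hS hn)).2
    have h7 : |(x : ℝ)| = n := by
      have : ((|x| : ℤ) : ℝ) = ((n : ℤ) : ℝ) := by rw [h5]
      push_cast at this
      exact this
    rw [h7]
    exact_mod_cast h6)
  refine ⟨E, hE1, hE2, fun y hy1 hy2 hyE => le_trans ?_ (hE3 y hy1 hy2 hyE)⟩
  apply Nat.cast_le.2
  apply card_le_card
  intro k hk
  rw [mem_filter] at hk ⊢
  obtain ⟨hk1, x, hx1, hx2⟩ := hk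
  refine ⟨hk1, x.natAbs, ?_, x, ?_, hx2⟩
  · rw [Nat.cast_natAbs, Int.cast_abs]
    exact hx1
  · rw [Nat.cast_natAbs, Int.cast_abs]

end Pool.Agent.Q319.DR
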